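import Pool.Agent.H37.CTN.Stmts

/-!
# Row FN4 of the board ctn: only finitely many values are excluded
-/

set_option autoImplicit false

namespace Pool.CND

open Finset Polynomial

theorem fn4_thm : S_FN4 := by
  intro k _ _ q r n hq hn
  haveI : Infinite k := IsAlgClosed.instInfinite
  have h2 : 1 ≤ q ^ n - 1 := by
    have : q ^ 1 ≤ q ^ n := Nat.pow_le_pow_right (by omega) hn
    simp only [pow_one] at this
    omega
  have hne : (X ^ (q ^ n - 1) + C 1 : k[X]) ≠ 0 := by
    intro h
    have := congrArg Polynomial.natDegree h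
    rw [natDegree_X_pow_add_C] at this
    simp at this
    omega
  classical
  obtain ⟨κ, hκ⟩ := Infinite.exists_notMem_finset
    (({0, -1} : Finset k) ∪ ((X ^ (q ^ n - 1) + C 1 : k[X]).roots.toFinset.image
      fun x => -(x ^ (q ^ (r + 1) - q))))
  simp only [mem_union, mem_insert, mem_singleton, mem_image, not_or, not_exists, not_and,
    Multiset.mem_toFinset] at hκ
  refine ⟨κ, hκ.1.1, fun _ => hκ.1.2, fun x hx he => ?_⟩
  refine hκ.2 x ?_ ?_
  · rw [mem_roots hne]
    simp [IsRoot, hx]
  · rw [he, neg_neg]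

end Pool.CND
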